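import Pool.Agent.Helper12.XG.St2

/-! # Project XG, module NU3 (numerical). -/

set_option autoImplicit false

namespace Pool.Agent.Helper34.XG

open Finset Polynomial Pool.Agent.Helper12.XG Pool.Agent.Helper14.GS

theorem hNU3 : StNU3 := by
  intro r C y Λ E G q N i t hP hq ht hlog hN hi
  have hΛ : (1200 : ℝ) ≤ Λ := by exact_mod_cast hP.hΛ
  have hC : (1 : ℝ) ≤ C := by exact_mod_cast hP.hC
  have hE0 : (0 : ℝ) ≤ E := Nat.cast_nonneg _
  have hq2 : (2 : ℝ) ≤ q := by exact_mod_cast hq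
  have ht0 : 0 < t := by linarith
  have hE2 : (1 : ℝ) ≤ (E : ℝ) ^ 2 + 1 := by nlinarith [sq_nonneg (E : ℝ)]
  -- kappa
  set κ : ℝ := 1 / (Λ : ℝ) ^ r with hκ
  have hκ0 : 0 ≤ κ := by rw [hκ]; positivity
  have hκ1 : κ ≤ 1 := by
    rw [hκ, div_le_one (by positivity)]
    exact one_le_pow₀ (by linarith)
  have hlog0 : 0 ≤ Real.log t := Real.log_nonneg ht
  have hEΛq : 0 ≤ (E : ℝ) * Λ * q := by positivity
  -- the base
  have hbase : 2 * ((E : ℝ) ^ 2 + 1) ≤ Real.exp ((Λ : ℝ) / 100) := by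
    have h1 : 2 * ((E : ℝ) ^ 2 + 1) ≤ 64 * C * Λ * ((E : ℝ) ^ 2 + 1) := by
      have h2 : (2 : ℝ) ≤ 64 * C * Λ := by nlinarith
      exact mul_le_mul_of_nonneg_right h2 (by positivity)
    have h3 : (2 * ((E : ℝ) ^ 2 + 1)) ^ 100 ≤ Real.exp ((Λ : ℝ) / 100) ^ 100 := by
      calc (2 * ((E : ℝ) ^ 2 + 1)) ^ 100 ≤ (64 * C * Λ * ((E : ℝ) ^ 2 + 1)) ^ 100 :=
            pow_le_pow_left₀ (by positivity) h1 100
        _ ≤ Real.exp Λ := hP.big
        _ = Real.exp ((Λ : ℝ) / 100) ^ 100 := by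
            rw [← Real.exp_nat_mul]
            congr 1
            push_cast
            ring
    exact le_of_pow_le_pow_left₀ (by norm_num) (Real.exp_pos _).le h3
  have hX0 : 0 ≤ 2 * ((E : ℝ) ^ 2 + 1) / N := by positivity
  have hX1 : 2 * ((E : ℝ) ^ 2 + 1) / N ≤ Real.exp (-(49 / 100 * (Λ : ℝ))) := by
    have hNpos : (0 : ℝ) < N := lt_of_lt_of_le (Real.exp_pos _) hN
    rw [div_le_iff₀ hNpos]
    calc 2 * ((E : ℝ) ^ 2 + 1) ≤ Real.exp ((Λ : ℝ) / 100) := hbase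
      _ = Real.exp (-(49 / 100 * (Λ : ℝ))) * Real.exp ((Λ : ℝ) / 2) := by
          rw [← Real.exp_add]
          congr 1
          ring
      _ ≤ Real.exp (-(49 / 100 * (Λ : ℝ))) * N :=
          mul_le_mul_of_nonneg_left hN (Real.exp_pos _).le
  have hX : (2 * ((E : ℝ) ^ 2 + 1) / N) ^ (E * q) ≤ Real.exp (-(49 / 100 * ((E : ℝ) * Λ * q))) := by
    calc (2 * ((E : ℝ) ^ 2 + 1) / N) ^ (E * q) ≤ Real.exp (-(49 / 100 * (Λ : ℝ))) ^ (E * q) :=
          pow_le_pow_left₀ hX0 hX1 _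
      _ = Real.exp (-(49 / 100 * ((E : ℝ) * Λ * q))) := by
          rw [← Real.exp_nat_mul]
          congr 1
          push_cast
          ring
  have hmain : t * (2 * ((E : ℝ) ^ 2 + 1) / N) ^ (E * q) ≤ t ^ (-κ) := by
    calc t * (2 * ((E : ℝ) ^ 2 + 1) / N) ^ (E * q)
        ≤ t * Real.exp (-(49 / 100 * ((E : ℝ) * Λ * q))) := mul_le_mul_of_nonneg_left hX ht0.le
      _ = Real.exp (Real.log t - 49 / 100 * ((E : ℝ) * Λ * q)) := by
          rw [sub_eq_add_neg, Real.exp_add, Real.exp_log ht0]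
      _ ≤ Real.exp (Real.log t * (-κ)) := by
          apply Real.exp_le_exp.2
          have h1 : κ * Real.log t ≤ 1 * Real.log t := mul_le_mul_of_nonneg_right hκ1 hlog0
          nlinarith
      _ = t ^ (-κ) := by rw [Real.rpow_def_of_pos ht0]
  have hy : (1 : ℝ) ≤ y := (Real.one_le_exp (by positivity)).trans hP.lo
  have hB : 0 ≤ BdR E q := by unfold BdR; positivity
  have hi2 : (2 : ℝ) ^ i ≤ 2 ^ (2 * q) := pow_le_pow_right₀ (by norm_num) (by omega)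
  have hy4 : (1 : ℝ) ≤ (y : ℝ) ^ (4 * q) := one_le_pow₀ hy
  have htk : 0 ≤ t ^ (-κ) := Real.rpow_nonneg ht0.le _
  have hQ : (2 : ℝ) ^ i ≤ (q : ℝ) * 2 ^ (2 * q) * (y : ℝ) ^ (4 * q) * y := by
    have h1 : (0 : ℝ) < 2 ^ (2 * q) := by positivity
    calc (2 : ℝ) ^ i ≤ 2 ^ (2 * q) := hi2
      _ = 1 * 2 ^ (2 * q) * 1 * 1 := by ring
      _ ≤ (q : ℝ) * 2 ^ (2 * q) * (y : ℝ) ^ (4 * q) * y := by
          gcongr
          linarith
  calc t * (2 * ((E : ℝ) ^ 2 + 1) * BdR E q * 2 ^ i * (2 * ((E : ℝ) ^ 2 + 1) / N) ^ (E * q))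
      = (2 * ((E : ℝ) ^ 2 + 1) * BdR E q) * (2 ^ i *
          (t * (2 * ((E : ℝ) ^ 2 + 1) / N) ^ (E * q))) := by ring
    _ ≤ (2 * ((E : ℝ) ^ 2 + 1) * BdR E q) *
          ((q : ℝ) * 2 ^ (2 * q) * (y : ℝ) ^ (4 * q) * y * t ^ (-κ)) := by
        apply mul_le_mul_of_nonneg_left _ (by positivity)
        exact mul_le_mul hQ hmain (by positivity) (by positivity)
    _ = EpR E q y t κ := by
        unfold EpR WaR
        ring

end Pool.Agent.Helper34.XG
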